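import Pool.Agent.T9h55.VM.Main

/-!
# The number of the moduli with a small variance of the primes in the residue classes

The property `Good σ ε k`: `G(X, k) ≥ X ((1 + σ) log k - log X - ε log X)` for all real `X ≥ k`. The number of the
exceptional moduli up to `N` is at most `C N ^ s` with `s < σ`, from the theorem `T9h55.VM.main`
(MP_5dd4bb_nt.ExceptionalSetTradeoff).
-/

set_option autoImplicit false

namespace Pool.Agent.T9h59.VP

open Finset

/-- `G(X, Q)`: the sum of `(ψ(X; Q, A) - X/φ(Q))²` over the reduced residue classes `A` modulo `Q`, `ψ(X; Q, A)` the sum of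
`Λ(n)` over the `n ≤ X`, `n ≡ A mod Q`. -/
noncomputable def G (X : ℝ) (Q : ℕ) : ℝ :=
  ∑ A ∈ (range Q).filter (fun A => A.Coprime Q),
    ((∑ n ∈ (Icc 1 ⌊X⌋₊).filter (fun n => n ≡ A [MOD Q]), ArithmeticFunction.vonMangoldt n) - X / Nat.totient Q) ^ 2

/-- `G(X, k) ≥ X ((1 + σ) log k - log X - ε log X)` for all real `X ≥ k` -/
def Good (σ ε : ℝ) (k : ℕ) : Prop :=
  ∀ X : ℝ, (k : ℝ) ≤ X → X * ((1 + σ) * Real.log k - Real.log X - ε * Real.log X) ≤ G X k

open Classical in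
/-- dyadic summation -/
lemma dyadic {S : Set ℕ} {s : ℝ} (hs : 0 < s) (K₀ : ℕ)
    (h : ∀ K : ℕ, K₀ ≤ K → (((Ioc K (2 * K)).filter (fun k => k ∈ S)).card : ℝ) ≤ (K : ℝ) ^ s) :
    ∃ C : ℝ, ∀ X : ℕ, 1 ≤ X → (((Icc 1 X).filter (fun k => k ∈ S)).card : ℝ) ≤ C * (X : ℝ) ^ s := by
  obtain ⟨t, ht⟩ : ∃ t : ℝ, t = (1 / 2 : ℝ) ^ s := ⟨_, rfl⟩
  have ht0 : 0 < t := by rw [ht]; positivity
  have ht1 : t < 1 := by
    rw [ht]
    exact Real.rpow_lt_one (by norm_num) (by norm_num) hs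
  obtain ⟨C, hC⟩ : ∃ C : ℝ, C = 2 / (1 - t) + 2 * K₀ + 2 := ⟨_, rfl⟩
  have hC0 : 0 ≤ C := by
    rw [hC]
    have : 0 < 1 - t := by linarith
    positivity
  have hCt : C * t + t + 1 ≤ C := by
    have h1 : 2 ≤ C * (1 - t) := by
      have h2 : 2 / (1 - t) ≤ C := by
        rw [hC]
        have : (0 : ℝ) ≤ K₀ := Nat.cast_nonneg _
        linarith
      rw [div_le_iff₀ (by linarith)] at h2
      exact h2
    nlinarith
  refine ⟨C, fun X => ?_⟩
  induction X using Nat.strong_induction_on with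
  | _ X ih =>
    intro hX
    have hX1 : (1 : ℝ) ≤ X := by exact_mod_cast hX
    have hXs : 1 ≤ (X : ℝ) ^ s := Real.one_le_rpow hX1 hs.le
    by_cases hsm : X < 2 * K₀ + 2
    · have h1 : (((Icc 1 X).filter (fun k => k ∈ S)).card : ℝ) ≤ X := by
        have := card_filter_le (Icc 1 X) (fun k => k ∈ S)
        rw [Nat.card_Icc, Nat.add_sub_cancel] at this
        exact_mod_cast this
      have h2 : (X : ℝ) ≤ 2 * K₀ + 2 := by exact_mod_cast hsm.le
      have h3 : (0 : ℝ) < 1 - t := by linarith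
      have h4 : (X : ℝ) ≤ C := by
        rw [hC]
        have : 0 ≤ 2 / (1 - t) := by positivity
        linarith
      nlinarith
    · push Not at hsm
      obtain ⟨K, hK⟩ : ∃ K, K = X / 2 := ⟨_, rfl⟩
      have hK1 : 1 ≤ K := by omega
      have hK2 : K < X := by omega
      have h1 := ih K hK2 hK1
      have h2 := h K (by omega)
      have hKX : (K : ℝ) ≤ X / 2 := by
        rw [le_div_iff₀ (by norm_num)]
        exact_mod_cast (by omega : K * 2 ≤ X)
      have hKs : (K : ℝ) ^ s ≤ t * (X : ℝ) ^ s := by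
        rw [ht, ← Real.mul_rpow (by norm_num) (by positivity)]
        exact Real.rpow_le_rpow (by positivity) (by linarith) hs.le
      have hsub : (Icc 1 X).filter (fun k => k ∈ S) ⊆
          ((Icc 1 K).filter (fun k => k ∈ S) ∪ (Ioc K (2 * K)).filter (fun k => k ∈ S)) ∪ {X} := by
        intro k hk
        rw [mem_filter, mem_Icc] at hk
        rw [mem_union, mem_union, mem_filter, mem_filter, mem_Icc, mem_Ioc, mem_singleton]
        by_cases hkK : k ≤ K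
        · exact Or.inl (Or.inl ⟨⟨hk.1.1, hkK⟩, hk.2⟩)
        · by_cases hk2 : k ≤ 2 * K
          · exact Or.inl (Or.inr ⟨⟨by omega, hk2⟩, hk.2⟩)
          · right
            omega
      have h3 : (((Icc 1 X).filter (fun k => k ∈ S)).card : ℝ) ≤
          ((Icc 1 K).filter (fun k => k ∈ S)).card + ((Ioc K (2 * K)).filter (fun k => k ∈ S)).card + 1 := by
        have h4 := (card_le_card hsub).trans ((card_union_le _ _).trans
          (Nat.add_le_add_right (card_union_le _ _) _))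
        rw [card_singleton] at h4
        exact_mod_cast h4
      calc (((Icc 1 X).filter (fun k => k ∈ S)).card : ℝ)
          ≤ C * (K : ℝ) ^ s + (K : ℝ) ^ s + 1 := by linarith
        _ ≤ C * (t * (X : ℝ) ^ s) + t * (X : ℝ) ^ s + (X : ℝ) ^ s := by
            have := mul_le_mul_of_nonneg_left hKs hC0
            linarith
        _ = (C * t + t + 1) * (X : ℝ) ^ s := by ring
        _ ≤ C * (X : ℝ) ^ s := mul_le_mul_of_nonneg_right hCt (by positivity)

/-- a part of `ε log X` can be used to lower `σ` -/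
lemma good_trade {σ ε a : ℝ} (ha : a ≤ ε / 2) (ha0 : 0 ≤ a) {k : ℕ} (hk : 1 ≤ k) (h : Good (σ - a) a k) :
    Good σ ε k := by
  intro X hX
  refine le_trans ?_ (h X hX)
  have hk1 : (1 : ℝ) ≤ k := by exact_mod_cast hk
  have hX0 : 0 ≤ X := by linarith
  have hl : Real.log k ≤ Real.log X := Real.log_le_log (by linarith) hX
  have hX2 : 0 ≤ Real.log X := Real.log_nonneg (by linarith)
  apply mul_le_mul_of_nonneg_left _ hX0
  nlinarith [mul_le_mul_of_nonneg_left hl ha0, mul_le_mul_of_nonneg_right ha hX2]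

/-- **The number of the exceptional moduli** up to `X` is at most `C X ^ s` with `s < σ`. -/
theorem count (σ ε : ℝ) (hσ : 0 < σ) (hσ1 : σ ≤ 1) (hε : 0 < ε) : ∃ s : ℝ, 0 ≤ s ∧ s < σ ∧ ∀ δ : ℝ, 0 < δ →
    ∃ C : ℝ, ∀ X : ℕ, 1 ≤ X →
      ({k : ℕ | 1 ≤ k ∧ k ≤ X ∧ True ∧ ¬ Good σ ε k}.ncard : ℝ) ≤ C * (X : ℝ) ^ (s + δ) := by
  classical
  obtain ⟨a, ha⟩ : ∃ a : ℝ, a = min ε σ / 2 := ⟨_, rfl⟩
  have ha0 : 0 < a := by rw [ha]; exact div_pos (lt_min hε hσ) two_pos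
  have ha1 : a ≤ ε / 2 := by rw [ha]; linarith [min_le_left ε σ]
  have ha2 : a ≤ σ / 2 := by rw [ha]; linarith [min_le_right ε σ]
  obtain ⟨κ, K₀, hκ, hmain⟩ := T9h55.VM.main a ha0
  obtain ⟨S, hS⟩ : ∃ S : Set ℕ, ∀ k, k ∈ S ↔ ¬ Good (σ - a) a k := ⟨{k | ¬ Good (σ - a) a k}, fun _ => Iff.rfl⟩
  obtain ⟨C, hC⟩ := dyadic (S := S) (s := σ - a) (by linarith) (⌈K₀⌉₊ + 1) (fun K hK => by
    have hK1 : K₀ ≤ K := (Nat.le_ceil K₀).trans (by exact_mod_cast (by omega : ⌈K₀⌉₊ ≤ K))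
    have hK2 : (1 : ℝ) ≤ K := by exact_mod_cast (by omega : 1 ≤ K)
    have h1 := hmain K (σ - a) hK1 (by linarith) (by linarith)
    refine le_trans ?_ (h1.trans (Real.rpow_le_rpow_of_exponent_le hK2 (by linarith)))
    rw [Nat.cast_le]
    refine card_le_card (fun k hk => ?_)
    rw [mem_filter] at hk ⊢
    refine ⟨hk.1, ?_⟩
    have h2 : ¬ Good (σ - a) a k := (hS k).1 hk.2
    unfold Good at h2
    push Not at h2
    exact h2)
  refine ⟨σ - a, by linarith, by linarith, fun δ hδ => ⟨|C|, fun X hX => ?_⟩⟩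
  have hX1 : (1 : ℝ) ≤ X := by exact_mod_cast hX
  have hsub : {k : ℕ | 1 ≤ k ∧ k ≤ X ∧ True ∧ ¬ Good σ ε k} ⊆
      (((Icc 1 X).filter (fun k => k ∈ S) : Finset ℕ) : Set ℕ) := by
    rintro k ⟨h1, h2, -, h3⟩
    rw [mem_coe, mem_filter, mem_Icc]
    exact ⟨⟨h1, h2⟩, (hS k).2 (fun h4 => h3 (good_trade ha1 ha0.le h1 h4))⟩
  have h1 : ({k : ℕ | 1 ≤ k ∧ k ≤ X ∧ True ∧ ¬ Good σ ε k}.ncard : ℝ) ≤
      (((Icc 1 X).filter (fun k => k ∈ S)).card : ℝ) := by
    have := Set.ncard_le_ncard hsub (finite_toSet _)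
    rw [Set.ncard_coe_finset] at this
    exact_mod_cast this
  calc ({k : ℕ | 1 ≤ k ∧ k ≤ X ∧ True ∧ ¬ Good σ ε k}.ncard : ℝ) ≤ C * (X : ℝ) ^ (σ - a) := h1.trans (hC X hX)
    _ ≤ |C| * (X : ℝ) ^ (σ - a) := mul_le_mul_of_nonneg_right (le_abs_self C) (by positivity)
    _ ≤ |C| * (X : ℝ) ^ (σ - a + δ) :=
        mul_le_mul_of_nonneg_left (Real.rpow_le_rpow_of_exponent_le hX1 (by linarith)) (abs_nonneg C)

end Pool.Agent.T9h59.VP
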